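import Pool.Agent.X145.Ulam.Num

set_option autoImplicit false
open MeasureTheory ProbabilityTheory Filter Topology

/-!
# MP_a2947a_pr: growth constants of the moments of the Ulam-Kac adder

`law` is the law of a sequence `u` of independent random variables, `u n` uniformly distributed
on `{0, …, n}`; `adder u` is the Ulam-Kac adder `X₀ = 1`, `X_{n+1} = X_n + X_{u n}`;
`moment m n = E[X_n^m]` (all three from `Pool/Agent/X145/Ulam/Proc.lean`).

For every `m ≥ 1`:
* for all large `n`, `exp (0.3 m) ≤ log E[X_n^m] / √n ≤ exp (0.4 m + 1)`;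
* if `c` is the limit of `log E[X_n^m] / √n` (the constant `c_m` of the problem), then
  `0.3 m ≤ log c ≤ 0.4 m + 1`, and more precisely
  `2 √(2^m - 1) ≤ c ≤ 2 √(m ∑_{j=1}^m C(m,j)/j)`.
-/

namespace Pool.Agent.Results.MP_a2947a_pr.GrowthConstants

open Pool.Agent.X145.Ulam

theorem result (m : ℕ) (hm : 1 ≤ m) :
    (∀ᶠ n : ℕ in atTop, Real.exp (0.3 * m) ≤ Real.log (moment m n) / Real.sqrt n ∧
      Real.log (moment m n) / Real.sqrt n ≤ Real.exp (0.4 * m + 1)) ∧
    (∀ c : ℝ, Tendsto (fun n : ℕ => Real.log (moment m n) / Real.sqrt n) atTop (𝓝 c) →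
      0.3 * (m : ℝ) ≤ Real.log c ∧ Real.log c ≤ 0.4 * m + 1 ∧
      2 * Real.sqrt ((2 : ℝ) ^ m - 1) ≤ c ∧
      c ≤ 2 * Real.sqrt (m * ∑ j ∈ Finset.Icc 1 m, ((m.choose j : ℕ) : ℝ) / (j : ℝ))) := by
  refine ⟨?_, fun c hc => ?_⟩
  · exact (lower_main m hm _ (low_lt m hm)).and (upper_main m hm _ (up_lt m hm))
  · obtain ⟨h1, h2⟩ := bounds m hm c hc
    obtain ⟨h3, h4⟩ := main m hm c hc
    refine ⟨h3, h4, h1, ?_⟩
    have h5 : SS m = ∑ j ∈ Finset.Icc 1 m, ((m.choose j : ℕ) : ℝ) / (j : ℝ) := by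
      unfold SS
      have h6 : Finset.Icc 1 m = Finset.Ico (0 + 1) (m + 1) := by
        ext x
        simp only [Finset.mem_Icc, Finset.mem_Ico]
        omega
      rw [h6, ← Finset.sum_Ico_add' (fun j : ℕ => ((m.choose j : ℕ) : ℝ) / (j : ℝ)) 0 m 1,
        Finset.range_eq_Ico]
      refine Finset.sum_congr rfl fun j _ => ?_
      push_cast
      rfl
    rwa [h5] at h2

end Pool.Agent.Results.MP_a2947a_pr.GrowthConstants
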